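import Pool.Agent.H1.UZ.TarPC

/-!
# Board uz_modules, PCH: uniformization from the complexity of the graph
-/

set_option autoImplicit false

namespace SE.UZ

open SF PSR

theorem pf_PCH (hPCG : T_PCG) : T_PCH := by
  intro M hM L hL j E hE1 hE2 hE3 hE4 a ha hra
  obtain ⟨b, hb, hrb, hB⟩ := hPCG M hM L hL j a ha hra
  have key : ∀ x y, M x → Rl x → M y → Rl y → (¬ SgH M (j + 3) b (prl x y) ↔ E a x y) := by
    intro x y hx hrx hy hry
    rw [hB x y hx hrx hy hry, hE4 a x y ha hra hx hrx hy hry]
    constructor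
    · intro h
      by_contra hne
      exact h (Or.inr hne)
    · rintro h (h' | h')
      · exact hE2 a x y ha hra hx hrx hy hry h h'
      · exact h' h
  refine ⟨b, hb, hrb, ?_, ?_, ?_⟩
  · intro x y hx hrx hy hry h
    exact hE2 a x y ha hra hx hrx hy hry ((key x y hx hrx hy hry).1 h)
  · intro x y z hx hrx hy hry hz hrz h h'
    exact hE1 a x y z ha hra hx hrx hy hry hz hrz ((key x y hx hrx hy hry).1 h)
      ((key x z hx hrx hz hrz).1 h')
  · intro x y hx hrx hy hry h
    by_contra hne
    push Not at hne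
    refine h (hE3 a x ha hra hx hrx (fun z hz hrz hEz => ?_) y hy hry)
    exact (key x z hx hrx hz hrz).2 hEz (hne z hz hrz)

end SE.UZ
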